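import Pool.Agent.QUD.StmtsL

/-!
# Squad QUD, row SUM: the sum of the contributions
-/

set_option autoImplicit false

namespace Pool.Agent.QUD.H13

open MeasureTheory Complex Filter Topology ProbabilityTheory Pool.Agent.H16Iso Pool.Agent.H62T
open Pool.Agent.H16F (Sublin ind)
open Pool.Agent.AEU Pool.Agent.XQ Pool.Agent.QUD

theorem rot_set (a b c d : HP) : ({d, a, b, c} : Finset HP) = {a, b, c, d} := by
  ext s
  simp only [Finset.mem_insert, Finset.mem_singleton]
  tauto

theorem cyc_rot {a b c d : HP} (h : Cyc a b c d) : Cyc d a b c := by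
  obtain ⟨h1, h2, h3, h4, h5, h6⟩ := h.ne
  refine ⟨⟨h3.symm, h5.symm, h6.symm, h1, h2, h4⟩, ?_, h.da, h.ab, h.bc, h.cd, ?_, ?_, ?_, ?_⟩
  · rw [rot_set]; exact h.pg
  · rw [rot_set]; exact h.vda
  · rw [rot_set]; exact h.vab
  · rw [rot_set]; exact h.vbc
  · rw [rot_set]; exact h.vcd

theorem TA_comm (b b' a : ℝ) : H12.TA b b' a = H12.TA b' b a := by
  unfold H12.TA
  congr 1
  funext p
  ring

theorem germA_comm (l β β' κ : ℝ) : germA l β β' κ = germA l β' β κ := by
  unfold germA
  rw [TA_comm]

theorem gE_comm (L x y κ : ℝ) (h : Real.pi < x + y) : gE L x y κ = gE L y x κ := by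
  unfold gE
  by_cases hx : x < Real.pi / 2
  · have hy : ¬ y < Real.pi / 2 := by intro h'; linarith
    rw [if_pos hx, if_neg hy, if_pos hx]
  · by_cases hy : y < Real.pi / 2
    · rw [if_neg hx, if_pos hy, if_pos hy]
    · rw [if_neg hx, if_neg hy, if_neg hy, if_neg hx]
      by_cases hx' : x = Real.pi / 2
      · have hy' : ¬ y = Real.pi / 2 := by intro h'; linarith
        rw [if_pos hx', if_neg hy', if_pos hx']
      · by_cases hy' : y = Real.pi / 2
        · rw [if_neg hx', if_pos hy', if_pos hy']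
        · rw [if_neg hx', if_neg hy', if_neg hy', if_neg hx', germA_comm]

theorem sum_row (grm : GrmStmt) : SumStmt := by
  intro X L l hL hl
  rcases hl with ⟨rfl, hN⟩ | ⟨a, b, c, d, x, y, hX, hcyc, hdie, hN, rfl⟩ |
    ⟨a, b, c, d, x, y, z, hX, hcyc, hdie, hdie', hN, rfl⟩
  · rw [hN]
    have h := H35.small_zero L
    simpa [gsum] using h
  · rw [hN]
    have h := grm a b c d L x y hcyc hL hdie
    simpa [gsum] using h
  · rw [hN]
    have h1 := grm a b c d L x y hcyc hL hdie
    have h2 := grm d a b c L z x (cyc_rot hcyc) hL hdie'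
    have hne : ({a, b, c} : Finset HP) ≠ {d, a, b} := by
      intro he
      have hc : c ∈ ({d, a, b} : Finset HP) := by
        rw [← he]
        simp
      obtain ⟨h1, h2, h3, h4, h5, h6⟩ := hcyc.ne
      simp only [Finset.mem_insert, Finset.mem_singleton] at hc
      rcases hc with h | h | h
      · exact h6 h
      · exact h2 h.symm
      · exact h4 h.symm
    have h3 := H35.small_add h1 h2
    have e : (fun κ => ∑ S ∈ ({{a, b, c}, {d, a, b}} : Finset (Finset HP)), Lap (EZs S) κ -
        gsum L [(x, y), (x, z)] κ) = fun κ => Lap (EZs ({a, b, c} : Finset HP)) κ - gE L x y κ +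
          (Lap (EZs ({d, a, b} : Finset HP)) κ - gE L z x κ) := by
      funext κ
      rw [Finset.sum_pair hne]
      simp only [gsum, List.map_cons, List.map_nil, List.sum_cons, List.sum_nil]
      rw [gE_comm L z x κ hdie'.sum]
      ring
    rw [e]
    exact h3

end Pool.Agent.QUD.H13
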